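import Pool.Agent.EGF.Stmts

/-!
# Squad EGF (MP_1090a0_co), row OWN (helper44)
-/

set_option autoImplicit false

open Finset

namespace Pool.Agent.EGF.H44

open Pool.Agent.EGF

theorem card_small (k r : ℕ) :
    ((Finset.univ : Finset (Finset (Fin k))).filter (fun M => M.card ≤ r)).card ≤ (k + 1) ^ r := by
  classical
  have h : ((Finset.univ : Finset (Finset (Fin k))).filter (fun M => M.card ≤ r)) ⊆
      (Finset.univ : Finset (Fin r → Option (Fin k))).image
        (fun f => Finset.univ.filter (fun a => ∃ i, f i = some a)) := by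
    intro M hM
    rw [Finset.mem_filter] at hM
    rw [Finset.mem_image]
    refine ⟨fun i => if h : (i : ℕ) < M.card then some (M.equivFin.symm ⟨i, h⟩ : Fin k) else none,
      Finset.mem_univ _, ?_⟩
    ext a
    simp only [Finset.mem_filter, Finset.mem_univ, true_and]
    constructor
    · rintro ⟨i, hi⟩
      by_cases h : (i : ℕ) < M.card
      · rw [dif_pos h] at hi
        have h2 := Option.some.inj hi
        rw [← h2]
        exact (M.equivFin.symm ⟨i, h⟩).2
      · rw [dif_neg h] at hi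
        exact absurd hi (by simp)
    · intro ha
      refine ⟨⟨M.equivFin ⟨a, ha⟩, lt_of_lt_of_le (Fin.is_lt _) hM.2⟩, ?_⟩
      have h1 : ((M.equivFin ⟨a, ha⟩ : Fin M.card) : ℕ) < M.card := Fin.is_lt _
      rw [dif_pos h1]
      simp
  calc _ ≤ ((Finset.univ : Finset (Fin r → Option (Fin k))).image
        (fun f => Finset.univ.filter (fun a => ∃ i, f i = some a))).card := Finset.card_le_card h
    _ ≤ (Finset.univ : Finset (Fin r → Option (Fin k))).card := Finset.card_image_le
    _ = (k + 1) ^ r := by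
        rw [Finset.card_univ, Fintype.card_fun, Fintype.card_option, Fintype.card_fin,
          Fintype.card_fin]

/-- the popular classes contain three quarters of the vertices -/
theorem big_classes {V : Type} [DecidableEq V] {k : ℕ} (X : Finset V) (f : V → Finset (Fin k))
    (r : ℕ) (hf : ∀ x ∈ X, (f x).card ≤ r) :
    (3 / 4 : ℝ) * X.card ≤ ∑ M ∈ (X.image f).filter (fun M =>
      (X.card : ℝ) ≤ 4 * ((k : ℝ) + 1) ^ r * ((X.filter (fun x => f x = M)).card : ℝ)),
        ((X.filter (fun x => f x = M)).card : ℝ) := by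
  classical
  have hQ : (0 : ℝ) < ((k : ℝ) + 1) ^ r := by positivity
  have h1 : (X.card : ℝ) = ∑ M ∈ X.image f, ((X.filter (fun x => f x = M)).card : ℝ) := by
    exact_mod_cast Finset.card_eq_sum_card_image f X
  have h2 : ((X.image f).card : ℝ) ≤ ((k : ℝ) + 1) ^ r := by
    have h3 : X.image f ⊆ (Finset.univ : Finset (Finset (Fin k))).filter (fun M => M.card ≤ r) := by
      intro M hM
      obtain ⟨x, hx, rfl⟩ := Finset.mem_image.mp hM
      exact Finset.mem_filter.mpr ⟨Finset.mem_univ _, hf x hx⟩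
    exact_mod_cast (Finset.card_le_card h3).trans (card_small k r)
  have h4 := Finset.sum_filter_add_sum_filter_not (X.image f) (fun M =>
      (X.card : ℝ) ≤ 4 * ((k : ℝ) + 1) ^ r * ((X.filter (fun x => f x = M)).card : ℝ))
      (fun M => ((X.filter (fun x => f x = M)).card : ℝ))
  have h5 : ∑ M ∈ (X.image f).filter (fun M =>
      ¬ (X.card : ℝ) ≤ 4 * ((k : ℝ) + 1) ^ r * ((X.filter (fun x => f x = M)).card : ℝ)),
        ((X.filter (fun x => f x = M)).card : ℝ) ≤ X.card / 4 := by
    calc ∑ M ∈ (X.image f).filter (fun M =>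
          ¬ (X.card : ℝ) ≤ 4 * ((k : ℝ) + 1) ^ r * ((X.filter (fun x => f x = M)).card : ℝ)),
            ((X.filter (fun x => f x = M)).card : ℝ)
        ≤ ∑ M ∈ (X.image f).filter (fun M =>
          ¬ (X.card : ℝ) ≤ 4 * ((k : ℝ) + 1) ^ r * ((X.filter (fun x => f x = M)).card : ℝ)),
            (X.card : ℝ) / (4 * ((k : ℝ) + 1) ^ r) := by
          apply Finset.sum_le_sum
          intro M hM
          rw [Finset.mem_filter] at hM
          rw [le_div_iff₀ (by positivity)]
          have := not_le.mp hM.2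
          linarith
      _ = (((X.image f).filter (fun M =>
          ¬ (X.card : ℝ) ≤ 4 * ((k : ℝ) + 1) ^ r *
            ((X.filter (fun x => f x = M)).card : ℝ))).card : ℝ) *
              ((X.card : ℝ) / (4 * ((k : ℝ) + 1) ^ r)) := by
          rw [Finset.sum_const, nsmul_eq_mul]
      _ ≤ ((k : ℝ) + 1) ^ r * ((X.card : ℝ) / (4 * ((k : ℝ) + 1) ^ r)) := by
          apply mul_le_mul_of_nonneg_right _ (by positivity)
          refine le_trans ?_ h2
          exact_mod_cast Finset.card_filter_le _ _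
      _ = X.card / 4 := by
          field_simp
  rw [← h1] at h4
  linarith

theorem own (min' : MinStmt) : OwnStmt := by
  classical
  intro V _ k c U s L hsym hflat hL hs hU
  have hsR : (2 : ℝ) ≤ s := by exact_mod_cast hs
  have hs0 : (0 : ℝ) < s := by linarith
  have hN16 : (16 : ℝ) ≤ U.card := by exact_mod_cast hU
  have hN0 : (0 : ℝ) < U.card := by linarith
  obtain ⟨t, ht⟩ : ∃ t : ℝ, t = 1 / (s : ℝ) ^ 2 := ⟨_, rfl⟩
  have ht0 : 0 < t := by rw [ht]; positivity
  have hst : (s : ℝ) ^ 2 * t = 1 := by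
    rw [ht]
    field_simp
  -- the number of minor pairs
  have hmin := min' V k c U s (L * s) t hsym hflat hs ht0.le hst.le
  have hm : ((mins c U t).card : ℝ) * s ≤ 8 * L * (U.card : ℝ) ^ 2 := by
    have h1 : (s : ℝ) * (((mins c U t).card : ℝ) * (s - 1)) ≤ s * (4 * L * (U.card : ℝ) ^ 2) := by
      calc (s : ℝ) * (((mins c U t).card : ℝ) * (s - 1))
          = ((mins c U t).card : ℝ) * (s * (s - 1)) := by ring
        _ ≤ 4 * (L * s) * (U.card : ℝ) ^ 2 := hmin
        _ = _ := by ring
    have h2 := le_of_mul_le_mul_left h1 hs0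
    have h3 : ((mins c U t).card : ℝ) * s ≤ 2 * (((mins c U t).card : ℝ) * (s - 1)) := by
      have h4 : (0 : ℝ) ≤ ((mins c U t).card : ℝ) := Nat.cast_nonneg _
      nlinarith
    linarith
  -- the halves
  obtain ⟨U1, hU1, hU1c⟩ := Finset.exists_subset_card_eq (Nat.div_le_self U.card 2)
  have hU1R : (U.card : ℝ) - 1 ≤ 2 * U1.card := by
    rw [hU1c]
    have : U.card ≤ 2 * (U.card / 2) + 1 := by omega
    have h2 : (U.card : ℝ) ≤ 2 * ((U.card / 2 : ℕ) : ℝ) + 1 := by exact_mod_cast this
    linarith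
  obtain ⟨U2, hU2def⟩ : ∃ U2 : Finset V, U2 = U \ U1 := ⟨_, rfl⟩
  have hU2 : U2 ⊆ U := by rw [hU2def]; exact Finset.sdiff_subset
  have hdis : Disjoint U1 U2 := by rw [hU2def]; exact Finset.disjoint_sdiff
  have hU2R : (U.card : ℝ) ≤ 2 * U2.card := by
    have h1 : U2.card = U.card - U1.card := by rw [hU2def, Finset.card_sdiff_of_subset hU1]
    have h2 : U.card ≤ 2 * U2.card := by rw [h1, hU1c]; omega
    exact_mod_cast h2
  -- the major colours
  obtain ⟨F, hF⟩ : ∃ F : V → Finset (Fin k), ∀ x a, a ∈ F x ↔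
      t * U.card ≤ ((nb c U a x).card : ℝ) :=
    ⟨fun x => Finset.univ.filter (fun a => t * U.card ≤ ((nb c U a x).card : ℝ)), fun x a => by
      rw [Finset.mem_filter]
      exact ⟨fun h => h.2, fun h => ⟨Finset.mem_univ _, h⟩⟩⟩
  have hFc : ∀ x, (F x).card ≤ s ^ 2 := by
    intro x
    have h1 : ∑ a, (nb c U a x).card ≤ U.card := by
      have h2 := Finset.card_eq_sum_card_fiberwise (s := U.filter (fun y => y ≠ x))
        (t := (Finset.univ : Finset (Fin k))) (f := fun y => c x y)
        (fun y _ => Finset.mem_coe.mpr (Finset.mem_univ _))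
      have h3 : ∀ a : Fin k, (nb c U a x).card
          = ((U.filter (fun y => y ≠ x)).filter (fun y => c x y = a)).card := by
        intro a
        unfold nb
        rw [Finset.filter_filter]
      rw [Finset.sum_congr rfl fun a _ => h3 a, ← h2]
      exact Finset.card_filter_le _ _
    have h4 : ((F x).card : ℝ) * (t * U.card) ≤ U.card := by
      calc ((F x).card : ℝ) * (t * U.card) = ∑ _a ∈ F x, t * (U.card : ℝ) := by
            rw [Finset.sum_const, nsmul_eq_mul]
        _ ≤ ∑ a ∈ F x, ((nb c U a x).card : ℝ) :=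
            Finset.sum_le_sum fun a ha => (hF x a).mp ha
        _ ≤ ∑ a, ((nb c U a x).card : ℝ) :=
            Finset.sum_le_sum_of_subset_of_nonneg (Finset.subset_univ _)
              (fun _ _ _ => Nat.cast_nonneg _)
        _ ≤ U.card := by exact_mod_cast h1
    have h5 : ((F x).card : ℝ) * t ≤ 1 := by
      have h6 : (U.card : ℝ) * (((F x).card : ℝ) * t) ≤ U.card * 1 := by linarith
      exact le_of_mul_le_mul_left h6 hN0
    have h7 : ((F x).card : ℝ) ≤ (s : ℝ) ^ 2 := by
      have h8 : ((F x).card : ℝ) = (s : ℝ) ^ 2 * (((F x).card : ℝ) * t) := by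
        calc ((F x).card : ℝ) = ((F x).card : ℝ) * ((s : ℝ) ^ 2 * t) := by rw [hst, mul_one]
          _ = _ := by ring
      rw [h8]
      calc (s : ℝ) ^ 2 * (((F x).card : ℝ) * t) ≤ (s : ℝ) ^ 2 * 1 :=
            mul_le_mul_of_nonneg_left h5 (by positivity)
        _ = _ := mul_one _
    exact_mod_cast h7
  -- the popular classes
  have hb1 := big_classes U1 F (s ^ 2) fun x _ => hFc x
  have hb2 := big_classes U2 F (s ^ 2) fun x _ => hFc x
  set B1 := (U1.image F).filter (fun M =>
      (U1.card : ℝ) ≤ 4 * ((k : ℝ) + 1) ^ (s ^ 2) * ((U1.filter (fun x => F x = M)).card : ℝ))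
    with hB1
  set B2 := (U2.image F).filter (fun M =>
      (U2.card : ℝ) ≤ 4 * ((k : ℝ) + 1) ^ (s ^ 2) * ((U2.filter (fun x => F x = M)).card : ℝ))
    with hB2
  -- a good pair
  obtain ⟨M, hM, M', hM', hgood⟩ : ∃ M ∈ B1, ∃ M' ∈ B2,
      ((ex c (M ∪ M') (U1.filter (fun x => F x = M)) (U2.filter (fun x => F x = M'))).card : ℝ)
        ≤ 160 * L / s * ((U1.filter (fun x => F x = M)).card *
          (U2.filter (fun x => F x = M')).card) := by
    by_contra hcon
    push Not at hcon
    -- the exceptional pairs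
    obtain ⟨E, hE⟩ : ∃ E : Finset (V × V), ∀ p, p ∈ E ↔
        p.1 ∈ U1 ∧ p.2 ∈ U2 ∧ c p.1 p.2 ∉ F p.1 ∧ c p.1 p.2 ∉ F p.2 :=
      ⟨(U1 ×ˢ U2).filter (fun p => c p.1 p.2 ∉ F p.1 ∧ c p.1 p.2 ∉ F p.2), fun p => by
        rw [Finset.mem_filter, Finset.mem_product]
        tauto⟩
    have hEm : E ⊆ mins c U t := by
      intro p hp
      rw [hE] at hp
      obtain ⟨h1, h2, h3, h4⟩ := hp
      unfold mins
      rw [Finset.mem_filter, Finset.mem_product]
      refine ⟨⟨hU1 h1, hU2 h2⟩, ?_, ?_, ?_⟩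
      · intro h5
        exact (Finset.disjoint_left.mp hdis) h1 (h5 ▸ h2)
      · rw [hF] at h3
        exact not_le.mp h3
      · rw [hF] at h4
        exact not_le.mp h4
    have hEsum : (∑ P ∈ B1 ×ˢ B2, ((ex c (P.1 ∪ P.2) (U1.filter (fun x => F x = P.1))
        (U2.filter (fun x => F x = P.2))).card : ℝ)) ≤ E.card := by
      have h1 : ∀ P : Finset (Fin k) × Finset (Fin k),
          ex c (P.1 ∪ P.2) (U1.filter (fun x => F x = P.1)) (U2.filter (fun x => F x = P.2))
            = E.filter (fun p => (F p.1, F p.2) = P) := by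
        intro P
        ext p
        unfold ex
        rw [Finset.mem_filter, Finset.mem_product, Finset.mem_filter, Finset.mem_filter,
          Finset.mem_filter, hE, Finset.mem_union, Prod.ext_iff]
        constructor
        · rintro ⟨⟨⟨h2, h3⟩, h4, h5⟩, h6⟩
          rw [← h3, ← h5] at h6
          exact ⟨⟨h2, h4, fun h => h6 (Or.inl h), fun h => h6 (Or.inr h)⟩, h3, h5⟩
        · rintro ⟨⟨h2, h4, h7, h8⟩, h3, h5⟩
          simp only at h3 h5
          refine ⟨⟨⟨h2, h3⟩, h4, h5⟩, ?_⟩
          rw [← h3, ← h5]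
          rintro (h | h)
          · exact h7 h
          · exact h8 h
      have h2 : (∑ P ∈ B1 ×ˢ B2, (E.filter (fun p => (F p.1, F p.2) = P)).card) ≤ E.card := by
        calc (∑ P ∈ B1 ×ˢ B2, (E.filter (fun p => (F p.1, F p.2) = P)).card)
            ≤ ∑ P ∈ (Finset.univ : Finset (Finset (Fin k) × Finset (Fin k))),
              (E.filter (fun p => (F p.1, F p.2) = P)).card :=
              Finset.sum_le_sum_of_subset (Finset.subset_univ _)
          _ = E.card := (Finset.card_eq_sum_card_fiberwise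
              (fun p _ => Finset.mem_coe.mpr (Finset.mem_univ _))).symm
      rw [Finset.sum_congr rfl fun P _ => by rw [h1 P]]
      exact_mod_cast h2
    have hlow : 160 * L / s * ((∑ M ∈ B1, ((U1.filter (fun x => F x = M)).card : ℝ)) *
        ∑ M' ∈ B2, ((U2.filter (fun x => F x = M')).card : ℝ)) ≤
        ∑ P ∈ B1 ×ˢ B2, ((ex c (P.1 ∪ P.2) (U1.filter (fun x => F x = P.1))
        (U2.filter (fun x => F x = P.2))).card : ℝ) := by
      rw [Finset.sum_product, Finset.sum_mul_sum, Finset.mul_sum]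
      apply Finset.sum_le_sum
      intro M hM
      rw [Finset.mul_sum]
      apply Finset.sum_le_sum
      intro M' hM'
      exact (hcon M hM M' hM').le
    have hEc : (E.card : ℝ) ≤ (mins c U t).card := by exact_mod_cast Finset.card_le_card hEm
    have hprod : (3 / 4 : ℝ) * U1.card * ((3 / 4 : ℝ) * U2.card) ≤
        (∑ M ∈ B1, ((U1.filter (fun x => F x = M)).card : ℝ)) *
          ∑ M' ∈ B2, ((U2.filter (fun x => F x = M')).card : ℝ) :=
      mul_le_mul hb1 hb2 (by positivity) (Finset.sum_nonneg fun _ _ => Nat.cast_nonneg _)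
    have hUU : (15 / 64 : ℝ) * (U.card : ℝ) ^ 2 ≤ U1.card * U2.card := by
      have h1 : (15 / 32 : ℝ) * U.card ≤ U1.card := by linarith
      have h2 : (1 / 2 : ℝ) * U.card ≤ U2.card := by linarith
      have h3 := mul_le_mul h1 h2 (by positivity) (Nat.cast_nonneg _)
      nlinarith
    have hc0 : 0 ≤ 160 * L / s := by positivity
    have h6 := mul_le_mul_of_nonneg_left hprod hc0
    have h7 : 160 * L / s * ((3 / 4 : ℝ) * U1.card * ((3 / 4 : ℝ) * U2.card))
        ≤ (mins c U t).card := h6.trans (hlow.trans (hEsum.trans hEc))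
    have h8 : 160 * L * ((9 / 16 : ℝ) * (U1.card * U2.card)) ≤ 8 * L * (U.card : ℝ) ^ 2 := by
      calc 160 * L * ((9 / 16 : ℝ) * (U1.card * U2.card))
          = 160 * L / s * ((3 / 4 : ℝ) * U1.card * ((3 / 4 : ℝ) * U2.card)) * s := by
            field_simp
            ring
        _ ≤ (mins c U t).card * s := mul_le_mul_of_nonneg_right h7 hs0.le
        _ ≤ _ := hm
    have h9 : 160 * L * ((9 / 16 : ℝ) * ((15 / 64 : ℝ) * (U.card : ℝ) ^ 2))
        ≤ 160 * L * ((9 / 16 : ℝ) * (U1.card * U2.card)) := by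
      apply mul_le_mul_of_nonneg_left _ (by positivity)
      linarith
    have h10 : 0 < L * (U.card : ℝ) ^ 2 := by positivity
    nlinarith
  -- conclusion
  rw [hB1, Finset.mem_filter] at hM
  rw [hB2, Finset.mem_filter] at hM'
  have hQ : (0 : ℝ) < ((k : ℝ) + 1) ^ (s ^ 2) := by positivity
  refine ⟨U1.filter (fun x => F x = M), U2.filter (fun x => F x = M'), M ∪ M',
    (Finset.filter_subset _ _).trans hU1, (Finset.filter_subset _ _).trans hU2, ?_, ?_, ?_, ?_,
    hgood⟩
  · exact Finset.disjoint_of_subset_left (Finset.filter_subset _ _)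
      (Finset.disjoint_of_subset_right (Finset.filter_subset _ _) hdis)
  · obtain ⟨x, -, hx⟩ := Finset.mem_image.mp hM.1
    obtain ⟨x', -, hx'⟩ := Finset.mem_image.mp hM'.1
    have h1 : M.card ≤ s ^ 2 := hx ▸ hFc x
    have h2 : M'.card ≤ s ^ 2 := hx' ▸ hFc x'
    have h3 := Finset.card_union_le M M'
    omega
  · have h1 := hM.2
    calc (U.card : ℝ) ≤ 4 * U1.card := by linarith
      _ ≤ 4 * (4 * ((k : ℝ) + 1) ^ (s ^ 2) * ((U1.filter (fun x => F x = M)).card : ℝ)) := by
          linarith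
      _ = _ := by ring
  · have h1 := hM'.2
    calc (U.card : ℝ) ≤ 4 * U2.card := by linarith
      _ ≤ 4 * (4 * ((k : ℝ) + 1) ^ (s ^ 2) * ((U2.filter (fun x => F x = M')).card : ℝ)) := by
          linarith
      _ = _ := by ring

end Pool.Agent.EGF.H44
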