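import Pool.Agent.EGF.StmtsV

/-!
EGF block V, row NUM: the choice of the parameters.  With `y = k ^ (1 / 200)` everything is a comparison of
powers of `y` and `Q ≤ y`.
-/

set_option autoImplicit false

namespace Pool.Agent.EGF.H44

/-- the floor parameter `R` and the bound for `(B + 2) ^ R` -/
private lemma rpart (lk lQ lu ly : ℝ) (hlQ : (100000000 : ℝ) * lQ ≤ lk) (hlQ1 : 1 ≤ lQ)
    (hly : ly = lk / 200) (hlu : lu ≤ 7 * lQ) (hlu0 : 0 ≤ lu) :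
    ∃ R : ℕ, 64 * lk / 1000000 + lu / Real.log (1 + 1 / 1000) < R ∧
      ((1000000 : ℝ) + 2) ^ R ≤ Real.exp ly := by
  have hlk0 : 0 ≤ lk := by linarith
  have hd : (1 : ℝ) / 1001 ≤ Real.log (1 + 1 / 1000) := by
    have h1 := Real.one_sub_inv_le_log_of_pos (show (0 : ℝ) < 1 + 1 / 1000 by norm_num)
    have h2 : (1 : ℝ) / 1001 = 1 - (1 + 1 / 1000)⁻¹ := by norm_num
    linarith
  have hd0 : 0 < Real.log (1 + 1 / 1000) := lt_of_lt_of_le (by norm_num) hd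
  have hq1 : lu / Real.log (1 + 1 / 1000) ≤ 1001 * lu := by
    rw [div_le_iff₀ hd0]
    nlinarith
  have hq0 : 0 ≤ lu / Real.log (1 + 1 / 1000) := div_nonneg hlu0 hd0.le
  set z := 64 * lk / 1000000 + lu / Real.log (1 + 1 / 1000) with hz
  have hz0 : 0 ≤ z := by
    have : 0 ≤ 64 * lk / 1000000 := by positivity
    linarith
  have hzle : z ≤ 64 * lk / 1000000 + 7007 * lk / 100000000 := by
    have h3 : lu / Real.log (1 + 1 / 1000) ≤ 7007 * lQ := by linarith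
    have h4 : 7007 * lQ ≤ 7007 * lk / 100000000 := by linarith
    linarith
  refine ⟨⌊z⌋₊ + 1, ?_, ?_⟩
  · push_cast
    exact Nat.lt_floor_add_one z
  · have hR : ((⌊z⌋₊ + 1 : ℕ) : ℝ) ≤ z + 1 := by
      push_cast
      have := Nat.floor_le hz0
      linarith
    have hB : ((1000000 : ℝ) + 2) ≤ Real.exp 14 := by
      have h5 : (2 : ℝ) ^ 20 ≤ Real.exp 14 := by
        have h6 : Real.exp 14 = Real.exp 1 ^ 14 := by
          rw [← Real.exp_nat_mul]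
          norm_num
        have h7 : (2.7182818283 : ℝ) ≤ Real.exp 1 := Real.exp_one_gt_d9.le
        rw [h6]
        calc (2 : ℝ) ^ 20 ≤ (2.7182818283 : ℝ) ^ 14 := by norm_num
          _ ≤ Real.exp 1 ^ 14 := pow_le_pow_left₀ (by norm_num) h7 14
      linarith [h5, (by norm_num : (1000000 : ℝ) + 2 ≤ 2 ^ 20)]
    calc ((1000000 : ℝ) + 2) ^ (⌊z⌋₊ + 1) ≤ Real.exp 14 ^ (⌊z⌋₊ + 1) :=
          pow_le_pow_left₀ (by norm_num) hB _
      _ = Real.exp (((⌊z⌋₊ + 1 : ℕ) : ℝ) * 14) := by rw [Real.exp_nat_mul]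
      _ ≤ Real.exp ly := by
          apply Real.exp_le_exp.mpr
          nlinarith

theorem num : NumStmt := by
  refine ⟨100000000, ?_⟩
  intro Q k hQ hk hlog N0 q hN0 hq
  have hQR : (1024 : ℝ) ≤ (Q : ℝ) := by exact_mod_cast hQ
  have hQ0 : (0 : ℝ) < Q := by linarith
  have hk1 : (1 : ℝ) ≤ k := le_trans (one_le_pow₀ (by linarith)) hk
  have hk0 : (0 : ℝ) < k := by linarith
  have hlQ : (100000000 : ℝ) * Real.log Q ≤ Real.log k := by
    have h1 := Real.log_le_log (pow_pos hQ0 _) hk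
    rw [Real.log_pow] at h1
    have h2 : ((100000000 : ℕ) : ℝ) = 100000000 := by norm_num
    rw [h2] at h1
    exact h1
  clear hk
  have hlQ1 : 1 ≤ Real.log Q := by
    rw [Real.le_log_iff_exp_le hQ0]
    have := Real.exp_one_lt_d9
    linarith
  obtain ⟨y, hy⟩ : ∃ y, y = Real.exp (Real.log k / 200) := ⟨_, rfl⟩
  have hy0 : 0 < y := by rw [hy]; exact Real.exp_pos _
  have hyk : y ^ 200 = k := by
    rw [hy, ← Real.exp_nat_mul]
    rw [show ((200 : ℕ) : ℝ) * (Real.log k / 200) = Real.log k by push_cast; ring]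
    exact Real.exp_log hk0
  have hly : Real.log y = Real.log k / 200 := by rw [hy]; exact Real.log_exp _
  have hyQ : (Q : ℝ) ^ 3 ≤ y := by
    rw [← Real.log_le_log_iff (by positivity) hy0, Real.log_pow, hly]
    push_cast
    linarith
  have hy3 : (1024 : ℝ) ^ 3 ≤ y := le_trans (pow_le_pow_left₀ (by norm_num) hQR 3) hyQ
  have hQQ : (Q : ℝ) ≤ (Q : ℝ) ^ 3 := by
    calc (Q : ℝ) = (Q : ℝ) ^ 1 := (pow_one _).symm
      _ ≤ (Q : ℝ) ^ 3 := pow_le_pow_right₀ (by linarith) (by norm_num)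
  have hyQ1 : (Q : ℝ) ≤ y := le_trans hQQ hyQ
  have hy1 : (1 : ℝ) ≤ y := by linarith
  -- u = 1 / q
  obtain ⟨u, hu⟩ : ∃ u : ℝ, u = 4 * ((640 * Q ^ 2 + 2 : ℕ) : ℝ) ^ 2 := ⟨_, rfl⟩
  have hqu : q = 1 / u := by rw [hq, hu]
  have hu' : u = 4 * (640 * (Q : ℝ) ^ 2 + 2) ^ 2 := by rw [hu]; push_cast; ring
  have hQ2 : (2 : ℝ) ≤ (Q : ℝ) ^ 2 :=
    le_trans (by norm_num) (pow_le_pow_left₀ (by norm_num) hQR 2)
  have hs641 : 640 * (Q : ℝ) ^ 2 + 2 ≤ 641 * (Q : ℝ) ^ 2 := by linarith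
  have hu1 : 1 ≤ u := by
    rw [hu']
    have h1 : (1 : ℝ) ≤ (640 * (Q : ℝ) ^ 2 + 2) ^ 2 := one_le_pow₀ (by linarith)
    linarith
  have hu0 : 0 < u := by linarith
  have hs2 : (640 * (Q : ℝ) ^ 2 + 2) ^ 2 ≤ 641 ^ 2 * (Q : ℝ) ^ 4 := by
    calc (640 * (Q : ℝ) ^ 2 + 2) ^ 2 ≤ (641 * (Q : ℝ) ^ 2) ^ 2 :=
          pow_le_pow_left₀ (by positivity) hs641 2
      _ = 641 ^ 2 * (Q : ℝ) ^ 4 := by ring
  have hQ3 : (1024 : ℝ) ^ 3 ≤ (Q : ℝ) ^ 3 := pow_le_pow_left₀ (by norm_num) hQR 3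
  have huQ : u ≤ (Q : ℝ) ^ 7 := by
    rw [hu']
    calc 4 * (640 * (Q : ℝ) ^ 2 + 2) ^ 2 ≤ 4 * (641 ^ 2 * (Q : ℝ) ^ 4) := by linarith
      _ = (4 * 641 ^ 2) * (Q : ℝ) ^ 4 := by ring
      _ ≤ (Q : ℝ) ^ 3 * (Q : ℝ) ^ 4 := by
          apply mul_le_mul_of_nonneg_right _ (by positivity)
          exact le_trans (by norm_num) hQ3
      _ = (Q : ℝ) ^ 7 := by ring
  -- N0 and S0
  have hN1 : y ^ 199 ≤ N0 := by
    refine le_trans ?_ hN0
    rw [le_div_iff₀ hQ0, ← hyk]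
    calc y ^ 199 * Q ≤ y ^ 199 * y := mul_le_mul_of_nonneg_left hyQ1 (by positivity)
      _ = y ^ 200 := by ring
  have hN0p : 0 < N0 := lt_of_lt_of_le (by positivity) hN1
  obtain ⟨S0, hS0⟩ : ∃ S0, S0 = N0 / y ^ 2 := ⟨_, rfl⟩
  have hS1 : y ^ 197 ≤ S0 := by
    rw [hS0, le_div_iff₀ (by positivity)]
    calc y ^ 197 * y ^ 2 = y ^ 199 := by ring
      _ ≤ N0 := hN1
  have hpow : ∀ m : ℕ, m ≤ 197 → y ^ m ≤ S0 := fun m hm =>
    le_trans (pow_le_pow_right₀ hy1 hm) hS1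
  have hS1' : y ≤ S0 := by
    have := hpow 1 (by norm_num)
    rwa [pow_one] at this
  -- κ
  obtain ⟨w, hw⟩ : ∃ w : ℝ, w = 1 / (6 * Q * y ^ 2) := ⟨_, rfl⟩
  have hw0 : 0 < w := by rw [hw]; positivity
  -- the parameter R
  have hlu : Real.log (1 / q) ≤ 7 * Real.log Q := by
    rw [hqu, one_div_one_div]
    calc Real.log u ≤ Real.log ((Q : ℝ) ^ 7) := Real.log_le_log hu0 huQ
      _ = 7 * Real.log Q := by rw [Real.log_pow]; push_cast; ring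
  have hlu0 : 0 ≤ Real.log (1 / q) := by
    rw [hqu, one_div_one_div]
    exact Real.log_nonneg hu1
  obtain ⟨R, hR1, hR2⟩ := rpart (Real.log k) (Real.log Q) (Real.log (1 / q)) (Real.log y)
    hlQ hlQ1 hly hlu hlu0
  rw [Real.exp_log hy0] at hR2
  refine ⟨R, w ^ 2, 1000000, S0, by norm_num, ?_, by positivity, ?_, ?_, ?_, ?_, ?_, hR1⟩
  · -- 3 + 2 s ^ 2 log (k + 1) ≤ S0
    have h1 : Real.log ((k : ℝ) + 1) ≤ Q := by
      refine le_trans (Real.log_le_log (by linarith) ?_) hlog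
      linarith
    have h0 : 0 ≤ Real.log ((k : ℝ) + 1) := Real.log_nonneg (by linarith)
    have h2 : (((640 * Q ^ 2 + 2 : ℕ) : ℝ)) ^ 2 = (640 * (Q : ℝ) ^ 2 + 2) ^ 2 := by
      push_cast; ring
    rw [h2]
    have h3 : 2 * (640 * (Q : ℝ) ^ 2 + 2) ^ 2 * Real.log ((k : ℝ) + 1)
        ≤ 2 * (641 ^ 2 * (Q : ℝ) ^ 4) * Q := by
      apply mul_le_mul _ h1 h0 (by positivity)
      linarith
    have h4 : 2 * (641 ^ 2 * (Q : ℝ) ^ 4) * Q ≤ (Q : ℝ) ^ 8 - 3 := by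
      have h5 : (2 * 641 ^ 2 + 1 : ℝ) ≤ (Q : ℝ) ^ 3 := le_trans (by norm_num) hQ3
      have h6 : (1 : ℝ) ≤ (Q : ℝ) ^ 5 := one_le_pow₀ (by linarith)
      have h6' : (3 : ℝ) ≤ (Q : ℝ) ^ 5 := by
        calc (3 : ℝ) ≤ (Q : ℝ) ^ 1 := by rw [pow_one]; linarith
          _ ≤ (Q : ℝ) ^ 5 := pow_le_pow_right₀ (by linarith) (by norm_num)
      have h7 : (2 * 641 ^ 2 + 1 : ℝ) * (Q : ℝ) ^ 5 ≤ (Q : ℝ) ^ 3 * (Q : ℝ) ^ 5 :=
        mul_le_mul_of_nonneg_right h5 (by positivity)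
      have h8 : (Q : ℝ) ^ 3 * (Q : ℝ) ^ 5 = (Q : ℝ) ^ 8 := by ring
      have h9 : 2 * (641 ^ 2 * (Q : ℝ) ^ 4) * Q = (2 * 641 ^ 2) * (Q : ℝ) ^ 5 := by ring
      rw [h9]
      linarith
    have h10 : (Q : ℝ) ^ 8 ≤ S0 :=
      le_trans (pow_le_pow_left₀ hQ0.le hyQ1 8) (hpow 8 (by norm_num))
    linarith
  · -- κ ≤ 1 / 8
    have h1 : w ≤ 1 / 6 := by
      rw [hw]
      apply one_div_le_one_div_of_le (by norm_num)
      have h2 : (1 : ℝ) ≤ y ^ 2 := one_le_pow₀ hy1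
      have h3 : (1 : ℝ) * 1 ≤ Q * y ^ 2 :=
        mul_le_mul (by linarith) h2 (by norm_num) hQ0.le
      have h4 : 6 * (Q : ℝ) * y ^ 2 = 6 * (Q * y ^ 2) := by ring
      rw [h4]
      linarith
    have h5 : w ^ 2 ≤ (1 / 6) ^ 2 := pow_le_pow_left₀ hw0.le h1 2
    exact le_trans h5 (by norm_num)
  · -- 3 √κ (Q N0) + 1 ≤ S0
    rw [Real.sqrt_sq hw0.le]
    have h1 : 3 * w * (Q * N0) = S0 / 2 := by
      rw [hw, hS0]
      field_simp
      ring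
    rw [h1]
    linarith
  · -- the regularity loss
    have h1 : 2 * 10 ^ 4 / (q * (q ^ 2 * w ^ 2 / (4 * 10 ^ 4)) ^ 2)
        = 2 * 10 ^ 4 * (144 * 10 ^ 4) ^ 2 * u ^ 5 * (Q : ℝ) ^ 4 * y ^ 8 := by
      rw [hqu, hw]
      field_simp
      ring
    rw [h1]
    have h2 : u ^ 5 ≤ (Q : ℝ) ^ 35 := by
      calc u ^ 5 ≤ ((Q : ℝ) ^ 7) ^ 5 := pow_le_pow_left₀ hu0.le huQ 5
        _ = (Q : ℝ) ^ 35 := by ring
    have h3 : (2 * 10 ^ 4 * (144 * 10 ^ 4) ^ 2 : ℝ) ≤ (Q : ℝ) ^ 6 := by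
      calc (2 * 10 ^ 4 * (144 * 10 ^ 4) ^ 2 : ℝ) ≤ 1024 ^ 6 := by norm_num
        _ ≤ (Q : ℝ) ^ 6 := pow_le_pow_left₀ (by norm_num) hQR 6
    calc 2 * 10 ^ 4 * (144 * 10 ^ 4) ^ 2 * u ^ 5 * (Q : ℝ) ^ 4 * y ^ 8
        ≤ (Q : ℝ) ^ 6 * (Q : ℝ) ^ 35 * (Q : ℝ) ^ 4 * y ^ 8 := by
          apply mul_le_mul_of_nonneg_right _ (by positivity)
          apply mul_le_mul_of_nonneg_right _ (by positivity)
          exact mul_le_mul h3 h2 (by positivity) (by positivity)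
      _ = (Q : ℝ) ^ 45 * y ^ 8 := by ring
      _ ≤ y ^ 45 * y ^ 8 :=
          mul_le_mul_of_nonneg_right (pow_le_pow_left₀ hQ0.le hyQ1 45) (by positivity)
      _ = y ^ 53 := by ring
      _ ≤ S0 := hpow 53 (by norm_num)
  · -- the dependent random choice condition
    have h1 : (1 / (2 * q ^ 2) + 6) * Real.log (2 / q) + 14
        = (u ^ 2 / 2 + 6) * Real.log (2 * u) + 14 := by
      rw [hqu]
      have e1 : 1 / (2 * (1 / u) ^ 2) = u ^ 2 / 2 := by field_simp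
      have e2 : 2 / (1 / u) = 2 * u := by field_simp
      rw [e1, e2]
    rw [h1]
    have h2 : Real.log (2 * u) ≤ 2 * u := by
      have := Real.log_le_sub_one_of_pos (show 0 < 2 * u by linarith)
      linarith
    have h3 : (u ^ 2 / 2 + 6) * Real.log (2 * u) ≤ (u ^ 2 / 2 + 6) * (2 * u) :=
      mul_le_mul_of_nonneg_left h2 (by positivity)
    have h4 : (u ^ 2 / 2 + 6) * (2 * u) + 14 ≤ 27 * u ^ 3 := by
      have h5 : u ≤ u ^ 3 := by
        calc u = u ^ 1 := (pow_one u).symm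
          _ ≤ u ^ 3 := pow_le_pow_right₀ hu1 (by norm_num)
      have h5' : (1 : ℝ) ≤ u ^ 3 := one_le_pow₀ hu1
      have e : (u ^ 2 / 2 + 6) * (2 * u) + 14 = u ^ 3 + 12 * u + 14 := by ring
      rw [e]
      linarith
    have h6 : u ^ 3 ≤ (Q : ℝ) ^ 21 := by
      calc u ^ 3 ≤ ((Q : ℝ) ^ 7) ^ 3 := pow_le_pow_left₀ hu0.le huQ 3
        _ = (Q : ℝ) ^ 21 := by ring
    have h7 : (Q : ℝ) ^ 21 ≤ y ^ 21 := pow_le_pow_left₀ hQ0.le hyQ1 21
    have h8 : 27 * y ^ 21 ≤ y ^ 22 := by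
      have h9 : y ^ 22 = y * y ^ 21 := by ring
      rw [h9]
      apply mul_le_mul_of_nonneg_right _ (by positivity)
      linarith
    have h10 := hpow 22 (by norm_num)
    linarith
  · -- the total loss
    have h1 : (((1000000 : ℝ) + 2) ^ R * S0) ≤ y * S0 :=
      mul_le_mul_of_nonneg_right hR2 (by linarith)
    have h2 : y * S0 = N0 / y := by
      rw [hS0]
      field_simp
    have h3 : 1000000 * (N0 / y) ≤ N0 / 2 := by
      rw [← mul_div_assoc, div_le_div_iff₀ hy0 (by norm_num)]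
      have h9 : N0 * 2000000 ≤ N0 * y := mul_le_mul_of_nonneg_left (by linarith) hN0p.le
      linarith
    have h4 : (6 : ℝ) ≤ N0 := by
      have h5 : y ≤ y ^ 199 := by
        calc y = y ^ 1 := (pow_one y).symm
          _ ≤ y ^ 199 := pow_le_pow_right₀ hy1 (by norm_num)
      linarith
    have h6 : (1000000 : ℝ) * (((1000000 : ℝ) + 2) ^ R * S0) ≤ 1000000 * (N0 / y) := by
      rw [← h2]
      exact mul_le_mul_of_nonneg_left h1 (by norm_num)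
    linarith

end Pool.Agent.EGF.H44
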