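import Pool.Agent.EGF.StmtsQ

/-! Row SG2 of squad EGF: sampling for `X`. -/

set_option autoImplicit false

open Finset

namespace Pool.Agent.EGF.H44

theorem sg2 (drf : DrfStmt) : Sg2Stmt := by
  intro V _ k c A B B0 X0 e a b Bi FI t q δ ξ d η τ hA hB hX0 hB0 ht ht1 hq hq1 hδ hξ hd hd1 hη hη1
    hdq hdq2 h1 h2 h3 h4 h5 h6
  have hAp : (0 : ℝ) < A.card := by exact_mod_cast hA.card_pos
  have hBp : (0 : ℝ) < B.card := by exact_mod_cast hB.card_pos
  have hXp : (0 : ℝ) < X0.card := by exact_mod_cast hX0.card_pos
  have hBA : (0 : ℝ) < B.card * A.card := mul_pos hBp hAp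
  have hqt : 0 < q * t := mul_pos hq ht
  have nbA : ∀ x, nb c A a x ⊆ A := fun x => Finset.filter_subset _ _
  obtain ⟨X, hX, J1, hJ1, hXn, hXc, hJc, hF, hG⟩ := drf V (V × V) (Fin k) V X0 (B ×ˢ A)
    (fun x => al c e B x ×ˢ nb c A a x) FI (fun i => Bi i ×ˢ A) B0
    (fun y => nb c B (b y) y ×ˢ al c e A y) (q * t) d ξ η τ hX0 (hB.product hA) hqt hd hd1 hξ hη hη1
    (fun x _ => Finset.product_subset_product (Finset.filter_subset _ _) (nbA x))
    (fun x hx => by
      simp only [Finset.card_product, Nat.cast_mul]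
      have e1 := h1 x hx
      have e2 := h2 x hx
      calc q * t * ((B.card : ℝ) * A.card) = (q * B.card) * (t * A.card) := by ring
        _ ≤ ((al c e B x).card : ℝ) * ((nb c A a x).card : ℝ) :=
          mul_le_mul e2 e1 (by positivity) (Nat.cast_nonneg _))
    (fun x hx i hi => by
      simp only [Finset.product_inter_product, Finset.card_product, Nat.cast_mul,
        Finset.inter_eq_left.mpr (nbA x)]
      have e1 := h1 x hx
      have e2 := h3 i hi x hx
      calc d * ((B.card : ℝ) * A.card) ≤ (q * δ * t) * ((B.card : ℝ) * A.card) :=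
            mul_le_mul_of_nonneg_right hdq hBA.le
        _ = (q * (δ * B.card)) * (t * A.card) := by ring
        _ ≤ ((al c e B x ∩ Bi i).card : ℝ) * ((nb c A a x).card : ℝ) :=
          mul_le_mul e2 e1 (by positivity) (Nat.cast_nonneg _))
    (fun x hx => by
      refine le_trans ?_ (h4 x hx)
      refine Nat.cast_le.mpr (Finset.card_le_card fun y hy => ?_)
      rw [Finset.mem_filter] at hy ⊢
      refine ⟨hy.1, fun hc => ?_⟩
      have h := hy.2
      simp only [Finset.product_inter_product, Finset.card_product, Nat.cast_mul] at h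
      have e3 : d * ((B.card : ℝ) * A.card) ≤ ((al c e B x ∩ nb c B (b y) y).card : ℝ) *
          ((nb c A a x ∩ al c e A y).card : ℝ) := by
        calc d * ((B.card : ℝ) * A.card) ≤ (q * t) ^ 2 * ((B.card : ℝ) * A.card) :=
              mul_le_mul_of_nonneg_right hdq2 hBA.le
          _ = (q * t * B.card) * (q * t * A.card) := by ring
          _ ≤ _ := mul_le_mul hc.1 hc.2 (by positivity) (Nat.cast_nonneg _)
      linarith) h5 h6
  refine ⟨X, hX, J1, hJ1, hXn, ?_, hJc, ?_, ?_⟩
  · have hlog := Real.log_le_log (by positivity) hXc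
    rw [Real.log_mul (by positivity) hXp.ne', Real.log_mul (by norm_num) (by positivity),
      Real.log_pow, one_div, Real.log_inv] at hlog
    rw [one_div, Real.log_inv]
    have hl2 : Real.log 2 ≤ 1 := by
      have := Real.log_two_lt_d9
      linarith
    linarith
  · intro x hx x' hx' i hi
    have h := hF x hx x' hx' i hi
    simp only [Finset.product_inter_product, Finset.card_product, Nat.cast_mul] at h
    have e1 : ((nb c A a x ∩ nb c A a x' ∩ A).card : ℝ) ≤ A.card :=
      Nat.cast_le.mpr (Finset.card_le_card Finset.inter_subset_right)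
    have e2 : (η * B.card) * A.card ≤
        ((al c e B x ∩ al c e B x' ∩ Bi i).card : ℝ) * A.card := by
      calc (η * B.card) * A.card = η * ((B.card : ℝ) * A.card) := by ring
        _ ≤ _ := h
        _ ≤ _ := mul_le_mul_of_nonneg_left e1 (Nat.cast_nonneg _)
    exact le_of_mul_le_mul_right e2 hAp
  · intro x hx x' hx' y hy
    have h := hG x hx x' hx' y hy
    simp only [Finset.product_inter_product, Finset.card_product, Nat.cast_mul] at h
    exact h

end Pool.Agent.EGF.H44
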